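import Pool.Agent.H32BM.Meas

set_option autoImplicit false

/-! # Estimates of the Bergman functions -/

namespace Pool.Agent.H32BM

open MeasureTheory Metric Set Filter Topology Real Polynomial

variable {k : ℕ} {e : Fin (k + 1) → ℂ[X]}

theorem bergman_nonneg (e : Fin (k + 1) → ℂ[X]) (z : ℂ) : 0 ≤ bergman e z :=
  Finset.sum_nonneg fun i _ => by positivity

theorem continuous_bergman (e : Fin (k + 1) → ℂ[X]) : Continuous (bergman e) := by
  unfold bergman
  fun_prop

/-- the inner product of two combinations -/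
theorem inner_comb (h : IsONB nu k e) (a b : Fin (k + 1) → ℂ) :
    ∫ z, (∑ i, a i * (e i).eval z) * (starRingEnd ℂ) (∑ j, b j * (e j).eval z) ∂nu =
      ∑ i, a i * (starRingEnd ℂ) (b i) := by
  have e1 : (fun z : ℂ => (∑ i, a i * (e i).eval z) * (starRingEnd ℂ) (∑ j, b j * (e j).eval z)) =
      fun z => ∑ i, ∑ j, (a i * (starRingEnd ℂ) (b j)) *
        ((e i).eval z * (starRingEnd ℂ) ((e j).eval z)) := by
    funext z
    rw [map_sum, Finset.sum_mul_sum]
    apply Finset.sum_congr rfl
    intro i _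
    apply Finset.sum_congr rfl
    intro j _
    rw [map_mul]
    ring
  rw [e1, integral_finsetSum]
  · apply Finset.sum_congr rfl
    intro i _
    rw [integral_finsetSum]
    · simp only [integral_const_mul, h.2]
      simp
    · intro j _
      apply Integrable.const_mul
      apply integrable_nu
      fun_prop
  · intro i _
    apply integrable_finsetSum
    intro j _
    apply Integrable.const_mul
    apply integrable_nu
    fun_prop

theorem norm_comb (h : IsONB nu k e) (a : Fin (k + 1) → ℂ) :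
    ∫ z, ‖∑ i, a i * (e i).eval z‖ ^ 2 ∂nu = ∑ i, ‖a i‖ ^ 2 := by
  have h1 := inner_comb h a a
  have e1 : (fun z : ℂ => (∑ i, a i * (e i).eval z) * (starRingEnd ℂ) (∑ j, a j * (e j).eval z)) =
      fun z => ((‖∑ i, a i * (e i).eval z‖ ^ 2 : ℝ) : ℂ) := by
    funext z
    rw [Complex.mul_conj, Complex.normSq_eq_norm_sq]
  rw [e1, integral_complex_ofReal] at h1
  have e2 : ∑ i, a i * (starRingEnd ℂ) (a i) = ((∑ i, ‖a i‖ ^ 2 : ℝ) : ℂ) := by
    push_cast
    apply Finset.sum_congr rfl
    intro i _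
    rw [Complex.mul_conj, Complex.normSq_eq_norm_sq]
    push_cast
    rfl
  rw [e2] at h1
  exact_mod_cast h1

theorem linInd (h : IsONB nu k e) : LinearIndependent ℂ e := by
  rw [Fintype.linearIndependent_iff]
  intro g hg i
  have h1 := norm_comb h g
  have h2 : ∀ z : ℂ, ∑ i, g i * (e i).eval z = 0 := by
    intro z
    have := congrArg (Polynomial.eval z) hg
    rw [Polynomial.eval_finsetSum] at this
    simpa using this
  simp only [h2] at h1
  simp at h1
  have h3 : ∑ i, ‖g i‖ ^ 2 = 0 := h1.symm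
  rw [Finset.sum_eq_zero_iff_of_nonneg (fun i _ => by positivity)] at h3
  simpa using h3 i (Finset.mem_univ i)

/-- every polynomial of degree at most `k` is a combination of the basis -/
theorem exists_comb (h : IsONB nu k e) {p : ℂ[X]} (hp : p.natDegree ≤ k) :
    ∃ a : Fin (k + 1) → ℂ, ∀ z, p.eval z = ∑ i, a i * (e i).eval z := by
  have hle : Submodule.span ℂ (range e) ≤ degreeLT ℂ (k + 1) := by
    rw [Submodule.span_le]
    rintro q ⟨i, rfl⟩
    rw [SetLike.mem_coe, mem_degreeLT]
    refine lt_of_le_of_lt degree_le_natDegree ?_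
    exact_mod_cast Nat.lt_succ_of_le (h.1 i)
  have hfin : Module.Finite ℂ (degreeLT ℂ (k + 1)) := inferInstance
  have hdim : Module.finrank ℂ (degreeLT ℂ (k + 1)) = k + 1 := by
    rw [(degreeLTEquiv ℂ (k + 1)).finrank_eq]
    simp
  have heq : Submodule.span ℂ (range e) = degreeLT ℂ (k + 1) := by
    apply Submodule.eq_of_le_of_finrank_eq hle
    rw [finrank_span_eq_card (linInd h), hdim]
    simp
  have hmem : p ∈ Submodule.span ℂ (range e) := by
    rw [heq, mem_degreeLT]
    refine lt_of_le_of_lt degree_le_natDegree ?_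
    exact_mod_cast Nat.lt_succ_of_le hp
  obtain ⟨a, ha⟩ := (Submodule.mem_span_range_iff_exists_fun ℂ).1 hmem
  refine ⟨a, fun z => ?_⟩
  rw [← ha, Polynomial.eval_finsetSum]
  simp

/-- the extremal property of the Bergman function -/
theorem le_bergman (h : IsONB nu k e) {p : ℂ[X]} (hp : p.natDegree ≤ k) (z : ℂ) :
    ‖p.eval z‖ ^ 2 ≤ (∫ w, ‖p.eval w‖ ^ 2 ∂nu) * bergman e z := by
  obtain ⟨a, ha⟩ := exists_comb h hp
  simp only [ha]
  rw [norm_comb h a]
  have h1 : ‖∑ i, a i * (e i).eval z‖ ≤ ∑ i, ‖a i‖ * ‖(e i).eval z‖ := by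
    refine (norm_sum_le _ _).trans (le_of_eq ?_)
    simp only [norm_mul]
  have h2 : (∑ i, ‖a i‖ * ‖(e i).eval z‖) ^ 2 ≤ (∑ i, ‖a i‖ ^ 2) * ∑ i, ‖(e i).eval z‖ ^ 2 :=
    Finset.sum_mul_sq_le_sq_mul_sq _ _ _
  calc ‖∑ i, a i * (e i).eval z‖ ^ 2 ≤ (∑ i, ‖a i‖ * ‖(e i).eval z‖) ^ 2 := by gcongr
    _ ≤ _ := h2

theorem integral_bergman (h : IsONB nu k e) : ∫ z, bergman e z ∂nu = k + 1 := by
  unfold bergman
  rw [integral_finsetSum]
  · have h1 : ∀ i, ∫ z, ‖(e i).eval z‖ ^ 2 ∂nu = 1 := by
      intro i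
      have h2 := norm_comb h (Pi.single i 1)
      have e1 : ∀ z : ℂ, ∑ j, (Pi.single i (1 : ℂ) : Fin (k + 1) → ℂ) j * (e j).eval z =
          (e i).eval z := by
        intro z
        rw [Finset.sum_eq_single i]
        · simp
        · intro j _ hj
          simp [hj]
        · simp
      simp only [e1] at h2
      rw [h2, Finset.sum_eq_single i]
      · simp
      · intro j _ hj
        simp [hj]
      · simp
    simp [h1]
  · intro i _
    apply integrable_nu
    fun_prop

theorem hasSum_bergman (h : IsONB nu k e) :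
    HasSum (fun j => cc j * bergman e (xx j)) ((k : ℝ) + 1) := by
  have h1 := hasSum_nu (continuous_bergman e)
  rw [integral_bergman h] at h1
  simpa using h1

/-- upper bound at the nodes -/
theorem mass_le (h : IsONB nu k e) (j : ℕ) : cc j * bergman e (xx j) ≤ 1 := by
  set a : Fin (k + 1) → ℂ := fun i => (starRingEnd ℂ) ((e i).eval (xx j)) with ha
  have h1 := norm_comb h a
  have h2 : ∑ i, ‖a i‖ ^ 2 = bergman e (xx j) := by
    simp [ha, bergman]
  have h3 : ∑ i, a i * (e i).eval (xx j) = ((bergman e (xx j) : ℝ) : ℂ) := by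
    unfold bergman
    push_cast
    apply Finset.sum_congr rfl
    intro i _
    rw [ha, mul_comm, Complex.mul_conj, Complex.normSq_eq_norm_sq]
    push_cast
    rfl
  have h4 := hasSum_nu (f := fun z => ‖∑ i, a i * (e i).eval z‖ ^ 2) (by fun_prop)
  rw [h1, h2] at h4
  have h5 : cc j * bergman e (xx j) ^ 2 ≤ bergman e (xx j) := by
    have h6 := le_hasSum h4 j (fun i _ => by
      simp only [smul_eq_mul]
      have := cc_pos i
      positivity)
    simp only [smul_eq_mul, h3] at h6
    rwa [Complex.norm_real, Real.norm_eq_abs, sq_abs] at h6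
  rcases eq_or_lt_of_le (bergman_nonneg e (xx j)) with h0 | h0
  · rw [← h0]
    simp
  · by_contra hcon
    push Not at hcon
    nlinarith

/-- lower bound at the first nodes -/
theorem mass_ge (h : IsONB nu k e) {j : ℕ} (hj : j ≤ k) :
    1 - 1 / ((k : ℝ) + 1) ≤ cc j * bergman e (xx j) := by
  have h1 := le_bergman h (LL_deg hj) (xx j)
  rw [LL_self hj, norm_one, one_pow] at h1
  have h2 := hasSum_nu (f := fun z => ‖(LL k j).eval z‖ ^ 2) (by fun_prop)
  have h3 : ∫ w, ‖(LL k j).eval w‖ ^ 2 ∂nu ≤ cc j * (1 + 1 / ((k : ℝ) + 1)) := by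
    rw [← h2.tsum_eq, ← h2.summable.sum_add_tsum_nat_add (k + 1)]
    have h4 : ∑ i ∈ Finset.range (k + 1), cc i • ‖(LL k j).eval (xx i)‖ ^ 2 = cc j := by
      rw [Finset.sum_eq_single j]
      · rw [LL_self hj]
        simp
      · intro i hi hij
        rw [LL_ne (Nat.lt_succ_iff.1 (Finset.mem_range.1 hi)) (Ne.symm hij)]
        simp
      · intro hj'
        exact absurd (Finset.mem_range.2 (Nat.lt_succ_of_le hj)) hj'
    have hs : Summable fun i => cc (k + 1 + i) * MM k := (summable_cc_add (k + 1)).mul_right _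
    have h5 : ∑' i, cc (i + (k + 1)) • ‖(LL k j).eval (xx (i + (k + 1)))‖ ^ 2 ≤
        ∑' i, cc (k + 1 + i) * MM k := by
      apply Summable.tsum_le_tsum _ _ hs
      · intro i
        simp only [smul_eq_mul]
        rw [add_comm i (k + 1)]
        exact mul_le_mul_of_nonneg_left (LL_le hj (norm_xx _).le) (cc_pos _).le
      · exact (summable_nat_add_iff (f := fun i => cc i • ‖(LL k j).eval (xx i)‖ ^ 2) (k + 1)).2
          h2.summable
    rw [tsum_mul_right] at h5
    have h6 := tail_le (k + 1)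
    rw [cc_succ] at h6
    have h7 : (∑' i, cc (k + 1 + i)) * MM k ≤ cc k * (1 / ((k : ℝ) + 1)) := by
      have h8 := MM_eta k
      have h9 := cc_pos k
      have h10 := MM_pos k
      calc (∑' i, cc (k + 1 + i)) * MM k ≤ (2 * (cc k * (eta k / 2))) * MM k := by gcongr
        _ = cc k * (MM k * eta k) := by ring
        _ ≤ cc k * (1 / ((k : ℝ) + 1)) := by gcongr
    have h11 : cc k ≤ cc j := cc_anti hj
    have h12 : cc k * (1 / ((k : ℝ) + 1)) ≤ cc j * (1 / ((k : ℝ) + 1)) := by gcongr
    rw [h4]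
    linarith
  have h13 : 1 ≤ cc j * (1 + 1 / ((k : ℝ) + 1)) * bergman e (xx j) :=
    h1.trans (mul_le_mul_of_nonneg_right h3 (bergman_nonneg _ _))
  have h14 : 0 ≤ cc j * bergman e (xx j) := mul_nonneg (cc_pos j).le (bergman_nonneg _ _)
  have h15 : 0 < 1 / ((k : ℝ) + 1) := by positivity
  nlinarith

/-- **Bergman measures are close to the counting measures of the nodes.** -/
theorem close (h : IsONB nu k e) {f : ℂ → ℝ} (hf : Continuous f) {C : ℝ}
    (hC : ∀ z : ℂ, ‖z‖ = 1 → |f z| ≤ C) :
    |(∫ z, f z * bergman e z ∂nu) / (k + 1) -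
      (1 / ((k : ℝ) + 1)) * ∑ j ∈ Finset.range (k + 1), f (xx j)| ≤ 2 * C / ((k : ℝ) + 1) := by
  have hk : (0 : ℝ) < (k : ℝ) + 1 := by positivity
  have hC0 : 0 ≤ C := (abs_nonneg _).trans (hC (xx 0) (norm_xx 0))
  set m : ℕ → ℝ := fun j => cc j * bergman e (xx j) with hm
  have hm0 : ∀ j, 0 ≤ m j := fun j => mul_nonneg (cc_pos j).le (bergman_nonneg _ _)
  have h1 := hasSum_nu (f := fun z => f z * bergman e z) (hf.mul (continuous_bergman e))
  have h2 : (fun j => cc j • (f (xx j) * bergman e (xx j))) = fun j => m j * f (xx j) := by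
    funext j
    simp only [hm, smul_eq_mul]
    ring
  simp only [h2] at h1
  have hsum := hasSum_bergman h
  have h3 : |(∫ z, f z * bergman e z ∂nu) - ∑ j ∈ Finset.range (k + 1), f (xx j)| ≤ 2 * C := by
    rw [← h1.tsum_eq, ← h1.summable.sum_add_tsum_nat_add (k + 1)]
    have hS : ∑ j ∈ Finset.range (k + 1), (1 - m j) ≤ 1 := by
      calc ∑ j ∈ Finset.range (k + 1), (1 - m j) ≤ ∑ _j ∈ Finset.range (k + 1), 1 / ((k : ℝ) + 1) := by
            apply Finset.sum_le_sum
            intro j hj
            have := mass_ge h (Nat.lt_succ_iff.1 (Finset.mem_range.1 hj))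
            simp only [hm]
            linarith
        _ = 1 := by
            rw [Finset.sum_const, Finset.card_range, nsmul_eq_mul]
            push_cast
            field_simp
    have hT : ∑' i, m (i + (k + 1)) = ∑ j ∈ Finset.range (k + 1), (1 - m j) := by
      have h5 := hsum.summable.sum_add_tsum_nat_add (k + 1)
      rw [hsum.tsum_eq] at h5
      rw [Finset.sum_sub_distrib]
      simp only [Finset.sum_const, Finset.card_range, nsmul_eq_mul, mul_one]
      push_cast
      simp only [hm] at h5 ⊢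
      linarith
    have hm1 : ∀ j, m j ≤ 1 := fun j => mass_le h j
    have hA : |∑ j ∈ Finset.range (k + 1), m j * f (xx j) - ∑ j ∈ Finset.range (k + 1), f (xx j)| ≤
        C * ∑ j ∈ Finset.range (k + 1), (1 - m j) := by
      rw [← Finset.sum_sub_distrib, Finset.mul_sum]
      refine (Finset.abs_sum_le_sum_abs _ _).trans ?_
      apply Finset.sum_le_sum
      intro j _
      have e3 : m j * f (xx j) - f (xx j) = -((1 - m j) * f (xx j)) := by ring
      rw [e3, abs_neg, abs_mul, abs_of_nonneg (by linarith [hm1 j]), mul_comm]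
      apply mul_le_mul_of_nonneg_right (hC _ (norm_xx j))
      linarith [hm1 j]
    have hms : Summable fun i => m (i + (k + 1)) :=
      (summable_nat_add_iff (f := m) (k + 1)).2 hsum.summable
    have hB : |∑' i, m (i + (k + 1)) * f (xx (i + (k + 1)))| ≤ C * ∑' i, m (i + (k + 1)) := by
      have hb : ∀ i, ‖m (i + (k + 1)) * f (xx (i + (k + 1)))‖ ≤ C * m (i + (k + 1)) := by
        intro i
        rw [norm_mul, Real.norm_of_nonneg (hm0 _), Real.norm_eq_abs, mul_comm]
        exact mul_le_mul_of_nonneg_right (hC _ (norm_xx _)) (hm0 _)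
      have hn : Summable fun i => ‖m (i + (k + 1)) * f (xx (i + (k + 1)))‖ :=
        Summable.of_nonneg_of_le (fun _ => norm_nonneg _) hb (hms.mul_left C)
      rw [← Real.norm_eq_abs]
      refine (norm_tsum_le_tsum_norm hn).trans ?_
      rw [← tsum_mul_left]
      exact hn.tsum_le_tsum hb (hms.mul_left C)
    rw [hT] at hB
    have hCS : C * ∑ j ∈ Finset.range (k + 1), (1 - m j) ≤ C * 1 :=
      mul_le_mul_of_nonneg_left hS hC0
    have e4 : ∑ j ∈ Finset.range (k + 1), m j * f (xx j) +
        ∑' i, m (i + (k + 1)) * f (xx (i + (k + 1))) - ∑ j ∈ Finset.range (k + 1), f (xx j) =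
        (∑ j ∈ Finset.range (k + 1), m j * f (xx j) - ∑ j ∈ Finset.range (k + 1), f (xx j)) +
        ∑' i, m (i + (k + 1)) * f (xx (i + (k + 1))) := by ring
    rw [e4]
    refine (abs_add_le _ _).trans ?_
    linarith
  have e5 : (∫ z, f z * bergman e z ∂nu) / (k + 1) -
      (1 / ((k : ℝ) + 1)) * ∑ j ∈ Finset.range (k + 1), f (xx j) =
      ((∫ z, f z * bergman e z ∂nu) - ∑ j ∈ Finset.range (k + 1), f (xx j)) / ((k : ℝ) + 1) := by
    field_simp
  rw [e5, abs_div, abs_of_pos hk]
  gcongr

end Pool.Agent.H32BM
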