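import Pool.Agent.H32BM.Equi

set_option autoImplicit false

/-! # Bergman functions of polynomial spaces in one variable: definitions -/

namespace Pool.Agent.H32BM

open MeasureTheory Metric Set Filter Topology Real Polynomial

/-- `ν` is a finite measure with support in `K`, and the `L²(ν)` norm is a norm on the space of
the polynomials (hence on the space of the polynomials of degree at most `k`, for every `k`). -/
structure Admissible (K : Set ℂ) (ν : Measure ℂ) : Prop where
  finite : IsFiniteMeasure ν
  supp : ν Kᶜ = 0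
  norm : ∀ p : ℂ[X], p ≠ 0 → 0 < ∫ z, ‖p.eval z‖ ^ 2 ∂ν

/-- `e 0, ..., e k` is an orthonormal basis, in `L²(ν)`, of the space of the polynomials of degree
at most `k` (`k + 1` orthonormal elements of a space of dimension `k + 1`). -/
def IsONB (ν : Measure ℂ) (k : ℕ) (e : Fin (k + 1) → ℂ[X]) : Prop :=
  (∀ i, (e i).natDegree ≤ k) ∧
    ∀ i j, ∫ z, (e i).eval z * (starRingEnd ℂ) ((e j).eval z) ∂ν = if i = j then 1 else 0

/-- The Bergman function `B_k = |e 0|² + ... + |e k|²`. -/
noncomputable def bergman {k : ℕ} (e : Fin (k + 1) → ℂ[X]) (z : ℂ) : ℝ :=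
  ∑ i, ‖(e i).eval z‖ ^ 2

end Pool.Agent.H32BM
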