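import Pool.Agent.H32BM.Pot

set_option autoImplicit false

/-! # Equidistribution of the points `exp (i j)` on the unit circle -/

namespace Pool.Agent.H32BM

open MeasureTheory Metric Set Filter Topology Real
open Pool.Agent.R212.Psh (ee ee_norm continuous_ee measurable_ee)

instance fact2pi : Fact ((0 : ℝ) < 2 * π) := ⟨by positivity⟩

/-- Cesàro means along the integers -/
noncomputable def AN (N : ℕ) (G : C(AddCircle (2 * π), ℂ)) : ℂ :=
  (1 / ((N : ℂ) + 1)) * ∑ j ∈ Finset.range (N + 1), G (((j : ℝ) : AddCircle (2 * π)))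

/-- the mean over the circle -/
noncomputable def IG (G : C(AddCircle (2 * π), ℂ)) : ℂ :=
  (1 / (2 * π : ℝ) : ℝ) * ∫ θ in Ioc (-π) π, G ((θ : ℝ) : AddCircle (2 * π))

theorem exp_int_ne_one {n : ℤ} (hn : n ≠ 0) : Complex.exp (n * Complex.I) ≠ 1 := by
  intro h
  rw [Complex.exp_eq_one_iff] at h
  obtain ⟨m, hm⟩ := h
  have h1 : (n : ℂ) = m * (2 * π) := by
    have : (n : ℂ) * Complex.I = (m * (2 * π)) * Complex.I := by rw [hm]; ring
    exact mul_right_cancel₀ Complex.I_ne_zero this
  have h2 : (n : ℝ) = m * (2 * π) := by exact_mod_cast h1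
  have hm0 : m ≠ 0 := by
    rintro rfl
    apply hn
    simpa using h2
  apply irrational_pi
  refine ⟨(n : ℚ) / (2 * m), ?_⟩
  have hm0' : (m : ℝ) ≠ 0 := by exact_mod_cast hm0
  push_cast
  field_simp
  linarith

theorem fourier_val (n : ℤ) (x : ℝ) :
    (fourier n ((x : ℝ) : AddCircle (2 * π)) : ℂ) = Complex.exp (n * x * Complex.I) := by
  rw [fourier_coe_apply]
  congr 1
  push_cast
  have : (π : ℂ) ≠ 0 := by exact_mod_cast Real.pi_ne_zero
  field_simp

theorem AN_norm (N : ℕ) (G : C(AddCircle (2 * π), ℂ)) : ‖AN N G‖ ≤ ‖G‖ := by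
  unfold AN
  rw [norm_mul]
  have h1 : ‖(1 / ((N : ℂ) + 1))‖ = 1 / ((N : ℝ) + 1) := by
    rw [norm_div, norm_one]
    congr 1
    have : ((N : ℂ) + 1) = ((N + 1 : ℝ) : ℂ) := by push_cast; ring
    rw [this, Complex.norm_real, Real.norm_of_nonneg (by positivity)]
  have h2 : ‖∑ j ∈ Finset.range (N + 1), G (((j : ℝ) : AddCircle (2 * π)))‖ ≤
      (N + 1 : ℕ) * ‖G‖ := by
    refine (norm_sum_le _ _).trans ?_
    refine (Finset.sum_le_card_nsmul _ _ ‖G‖ fun j _ => G.norm_coe_le_norm _).trans ?_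
    simp
  rw [h1]
  calc 1 / ((N : ℝ) + 1) * ‖∑ j ∈ Finset.range (N + 1), G (((j : ℝ) : AddCircle (2 * π)))‖
      ≤ 1 / ((N : ℝ) + 1) * ((N + 1 : ℕ) * ‖G‖) := by gcongr
    _ = ‖G‖ := by
      push_cast
      field_simp

theorem cont_coe (G : C(AddCircle (2 * π), ℂ)) :
    Continuous fun θ : ℝ => G ((θ : ℝ) : AddCircle (2 * π)) :=
  G.continuous.comp (AddCircle.continuous_mk' (2 * π))

theorem intOn (G : C(AddCircle (2 * π), ℂ)) :
    IntegrableOn (fun θ : ℝ => G ((θ : ℝ) : AddCircle (2 * π))) (Ioc (-π) π) :=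
  ((cont_coe G).continuousOn.integrableOn_Icc (a := -π) (b := π)).mono_set Ioc_subset_Icc_self

theorem IG_norm (G : C(AddCircle (2 * π), ℂ)) : ‖IG G‖ ≤ ‖G‖ := by
  unfold IG
  rw [norm_mul, Complex.norm_real, Real.norm_of_nonneg (by positivity)]
  have h1 : ‖∫ θ in Ioc (-π) π, G ((θ : ℝ) : AddCircle (2 * π))‖ ≤ ‖G‖ * (2 * π) := by
    refine (norm_setIntegral_le_of_norm_le_const (C := ‖G‖) (by simp) ?_).trans ?_
    · intro x _
      exact G.norm_coe_le_norm _
    · rw [Measure.real, Real.volume_Ioc, ENNReal.toReal_ofReal (by linarith [Real.pi_pos])]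
      apply le_of_eq
      ring
  calc 1 / (2 * π) * ‖∫ θ in Ioc (-π) π, G ((θ : ℝ) : AddCircle (2 * π))‖
      ≤ 1 / (2 * π) * (‖G‖ * (2 * π)) := by gcongr
    _ = ‖G‖ := by field_simp

theorem AN_add (N : ℕ) (G H : C(AddCircle (2 * π), ℂ)) : AN N (G + H) = AN N G + AN N H := by
  unfold AN
  simp only [ContinuousMap.add_apply]
  rw [Finset.sum_add_distrib, mul_add]

theorem AN_smul (N : ℕ) (a : ℂ) (G : C(AddCircle (2 * π), ℂ)) : AN N (a • G) = a * AN N G := by
  unfold AN
  simp only [ContinuousMap.smul_apply, smul_eq_mul]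
  rw [← Finset.mul_sum]
  ring

theorem IG_add (G H : C(AddCircle (2 * π), ℂ)) : IG (G + H) = IG G + IG H := by
  unfold IG
  simp only [ContinuousMap.add_apply]
  rw [integral_add (intOn G) (intOn H), mul_add]

theorem IG_smul (a : ℂ) (G : C(AddCircle (2 * π), ℂ)) : IG (a • G) = a * IG G := by
  unfold IG
  simp only [ContinuousMap.smul_apply, smul_eq_mul]
  rw [integral_const_mul]
  ring

theorem IG_fourier {n : ℤ} (hn : n ≠ 0) : IG (fourier n) = 0 := by
  unfold IG
  have h1 : ∫ θ in Ioc (-π) π, (fourier n ((θ : ℝ) : AddCircle (2 * π)) : ℂ) = 0 := by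
    have e : ∀ θ : ℝ, (fourier n ((θ : ℝ) : AddCircle (2 * π)) : ℂ) =
        Complex.exp ((n * Complex.I) * θ) := by
      intro θ
      rw [fourier_val]
      congr 1
      ring
    simp only [e]
    rw [← intervalIntegral.integral_of_le (by linarith [Real.pi_pos])]
    have hc : (n * Complex.I : ℂ) ≠ 0 := mul_ne_zero (by exact_mod_cast hn) Complex.I_ne_zero
    rw [integral_exp_mul_complex hc]
    have h2 : Complex.exp (n * Complex.I * (π : ℝ)) = Complex.exp (n * Complex.I * ((-π : ℝ) : ℂ)) := by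
      rw [Complex.exp_eq_exp_iff_exists_int]
      refine ⟨n, ?_⟩
      push_cast
      ring
    rw [h2, sub_self, zero_div]
  rw [h1, mul_zero]

theorem AN_fourier {n : ℤ} (hn : n ≠ 0) :
    Tendsto (fun N : ℕ => AN N (fourier n)) atTop (𝓝 0) := by
  set r : ℂ := Complex.exp (n * Complex.I) with hr
  have hr1 : r ≠ 1 := exp_int_ne_one hn
  have hrn : ‖r‖ = 1 := by
    have : (n : ℂ) * Complex.I = ((n : ℝ) : ℂ) * Complex.I := by push_cast; ring
    rw [hr, this, Complex.norm_exp_ofReal_mul_I]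
  have e : ∀ N : ℕ, AN N (fourier n) = (1 / ((N : ℂ) + 1)) * ((r ^ (N + 1) - 1) / (r - 1)) := by
    intro N
    unfold AN
    congr 1
    rw [← geom_sum_eq hr1]
    apply Finset.sum_congr rfl
    intro j _
    rw [fourier_val, hr, ← Complex.exp_nat_mul]
    congr 1
    push_cast
    ring
  rw [tendsto_zero_iff_norm_tendsto_zero]
  have hb : ∀ N : ℕ, ‖AN N (fourier n)‖ ≤ (2 / ‖r - 1‖) * (1 / ((N : ℝ) + 1)) := by
    intro N
    rw [e, norm_mul, norm_div, norm_div, norm_one]
    have h1 : ‖((N : ℂ) + 1)‖ = (N : ℝ) + 1 := by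
      have : ((N : ℂ) + 1) = ((N + 1 : ℝ) : ℂ) := by push_cast; ring
      rw [this, Complex.norm_real, Real.norm_of_nonneg (by positivity)]
    rw [h1]
    have h2 : ‖r ^ (N + 1) - 1‖ ≤ 2 := by
      refine (norm_sub_le _ _).trans ?_
      rw [norm_pow, hrn, one_pow, norm_one]
      norm_num
    have h3 : 0 < ‖r - 1‖ := norm_pos_iff.2 (sub_ne_zero.2 hr1)
    rw [mul_comm]
    gcongr
  refine squeeze_zero (fun N => norm_nonneg _) hb ?_
  have := tendsto_one_div_add_atTop_nhds_zero_nat (𝕜 := ℝ)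
  simpa using this.const_mul (2 / ‖r - 1‖)

theorem tendsto_AN (G : C(AddCircle (2 * π), ℂ)) :
    Tendsto (fun N : ℕ => AN N G) atTop (𝓝 (IG G)) := by
  have hspan : ∀ P ∈ Submodule.span ℂ (range (@fourier (2 * π))),
      Tendsto (fun N : ℕ => AN N P) atTop (𝓝 (IG P)) := by
    intro P hP
    induction hP using Submodule.span_induction with
    | mem x hx =>
      obtain ⟨n, rfl⟩ := hx
      rcases eq_or_ne n 0 with rfl | hn
      · have h1 : ∀ N : ℕ, AN N (fourier 0) = 1 := by
          intro N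
          unfold AN
          have : ((N : ℂ) + 1) ≠ 0 := Nat.cast_add_one_ne_zero N
          simp [this]
        have h2 : IG (fourier 0) = 1 := by
          unfold IG
          simp only [fourier_zero]
          rw [setIntegral_const, Measure.real, Real.volume_Ioc,
            ENNReal.toReal_ofReal (by linarith [Real.pi_pos])]
          have : (π : ℂ) ≠ 0 := by exact_mod_cast Real.pi_ne_zero
          simp
          field_simp
          ring
        simp only [h1, h2]
        exact tendsto_const_nhds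
      · rw [IG_fourier hn]
        exact AN_fourier hn
    | zero =>
      have h1 : ∀ N : ℕ, AN N 0 = 0 := by
        intro N
        unfold AN
        simp
      have h2 : IG 0 = 0 := by
        unfold IG
        simp
      simp only [h1, h2]
      exact tendsto_const_nhds
    | add x y _ _ hx hy =>
      simp only [AN_add, IG_add]
      exact hx.add hy
    | smul a x _ hx =>
      simp only [AN_smul, IG_smul]
      exact hx.const_mul a
  rw [Metric.tendsto_atTop]
  intro ε hε
  have hd : G ∈ (Submodule.span ℂ (range (@fourier (2 * π)))).topologicalClosure := by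
    rw [span_fourier_closure_eq_top]
    exact Submodule.mem_top
  have hd' : G ∈ closure ((Submodule.span ℂ (range (@fourier (2 * π))) :
      Submodule ℂ C(AddCircle (2 * π), ℂ)) : Set C(AddCircle (2 * π), ℂ)) := hd
  obtain ⟨P, hP, hGP⟩ := Metric.mem_closure_iff.1 hd' (ε / 3) (by positivity)
  obtain ⟨N₀, hN₀⟩ := Metric.tendsto_atTop.1 (hspan P hP) (ε / 3) (by positivity)
  refine ⟨N₀, fun N hN => ?_⟩
  have h1 := hN₀ N hN
  rw [dist_eq_norm] at h1 hGP ⊢
  have h2 : AN N G - IG G = AN N (G - P) + (AN N P - IG P) + IG (P - G) := by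
    have e1 : AN N G = AN N (G - P) + AN N P := by
      rw [← AN_add]
      congr 1
      abel
    have e2 : IG (P - G) = IG P - IG G := by
      have := IG_add (P - G) G
      rw [sub_add_cancel] at this
      rw [this]
      ring
    rw [e1, e2]
    ring
  have h3 := AN_norm N (G - P)
  have h4 := IG_norm (P - G)
  rw [norm_sub_rev P G] at h4
  rw [h2]
  calc ‖AN N (G - P) + (AN N P - IG P) + IG (P - G)‖
      ≤ ‖AN N (G - P)‖ + ‖AN N P - IG P‖ + ‖IG (P - G)‖ := norm_add₃_le
    _ < ε := by linarith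

/-- **Equidistribution** of the points `exp (i j)`. -/
theorem equi {f : ℂ → ℝ} (hf : Continuous f) :
    Tendsto (fun N : ℕ => (1 / ((N : ℝ) + 1)) * ∑ j ∈ Finset.range (N + 1), f (ee j)) atTop
      (𝓝 (∫ z, f z ∂circ)) := by
  have hper : Function.Periodic (fun θ : ℝ => ((f (ee θ) : ℝ) : ℂ)) (2 * π) := by
    intro θ
    simp only
    congr 2
    unfold ee
    push_cast
    rw [add_mul, Complex.exp_add, Complex.exp_two_pi_mul_I, mul_one]
  have hc : Continuous (fun θ : ℝ => ((f (ee θ) : ℝ) : ℂ)) :=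
    Complex.continuous_ofReal.comp (hf.comp continuous_ee)
  set G : C(AddCircle (2 * π), ℂ) := ⟨hper.lift, continuous_coinduced_dom.mpr hc⟩ with hG
  have hGv : ∀ θ : ℝ, G ((θ : ℝ) : AddCircle (2 * π)) = ((f (ee θ) : ℝ) : ℂ) := by
    intro θ
    exact hper.lift_coe θ
  have h1 := tendsto_AN G
  have h2 : ∀ N : ℕ, AN N G =
      (((1 / ((N : ℝ) + 1)) * ∑ j ∈ Finset.range (N + 1), f (ee j) : ℝ) : ℂ) := by
    intro N
    unfold AN
    simp only [hGv]
    push_cast
    ring
  have h3 : IG G = ((∫ z, f z ∂circ : ℝ) : ℂ) := by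
    unfold IG
    simp only [hGv]
    rw [integral_circ hf, integral_complex_ofReal]
    push_cast
    ring
  simp only [h2, h3] at h1
  have h4 := (Complex.continuous_re.tendsto _).comp h1
  rw [Complex.ofReal_re] at h4
  exact h4.congr fun N => by
    simp only [Function.comp]
    exact Complex.ofReal_re _

theorem ee_injective : Function.Injective (fun j : ℕ => ee (j : ℝ)) := by
  intro j k h
  simp only at h
  by_contra hne
  have hn : ((j : ℤ) - (k : ℤ)) ≠ 0 := by
    intro h0
    apply hne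
    omega
  apply exp_int_ne_one hn
  unfold ee at h
  push_cast
  rw [sub_mul, Complex.exp_sub]
  have h5 : Complex.exp ((j : ℂ) * Complex.I) = Complex.exp ((k : ℂ) * Complex.I) := by
    simpa using h
  rw [h5, div_self (Complex.exp_ne_zero _)]

end Pool.Agent.H32BM
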