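import Pool.Agent.H32BM.Berg

set_option autoImplicit false

/-! # The two asymptotic properties -/

namespace Pool.Agent.H32BM

open MeasureTheory Metric Set Filter Topology Real Polynomial

/-- **(S)** -/
theorem strong {e : (k : ℕ) → Fin (k + 1) → ℂ[X]} (he : ∀ k, IsONB nu k (e k)) {f : ℂ → ℝ}
    (hf : Continuous f) :
    Tendsto (fun k : ℕ => (∫ z, f z * bergman (e k) z ∂nu) / (k + 1)) atTop
      (𝓝 (∫ z, f z ∂circ)) := by
  obtain ⟨C, hC⟩ := (isCompact_sphere (0 : ℂ) 1).exists_bound_of_continuousOn hf.continuousOn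
  have hC' : ∀ z : ℂ, ‖z‖ = 1 → |f z| ≤ C := fun z hz => hC z (by simpa using hz)
  have h1 := equi hf
  have h2 : Tendsto (fun k : ℕ => (∫ z, f z * bergman (e k) z ∂nu) / (k + 1) -
      (1 / ((k : ℝ) + 1)) * ∑ j ∈ Finset.range (k + 1), f (xx j)) atTop (𝓝 0) := by
    rw [tendsto_zero_iff_norm_tendsto_zero]
    refine squeeze_zero (fun k => norm_nonneg _) (fun k => close (he k) hf hC') ?_
    have := (tendsto_one_div_add_atTop_nhds_zero_nat (𝕜 := ℝ)).const_mul (2 * C)
    rw [mul_zero] at this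
    refine this.congr fun k => ?_
    ring
  have h3 := h2.add h1
  rw [zero_add] at h3
  refine h3.congr fun k => ?_
  have : ∀ j : ℕ, xx j = Pool.Agent.R212.Psh.ee (j : ℝ) := fun _ => rfl
  simp only [this]
  ring

/-- the polynomial with zeros at the first `k` nodes -/
noncomputable def QQ (k : ℕ) : ℂ[X] := ∏ i ∈ Finset.range k, (X - C (xx i))

theorem QQ_deg (k : ℕ) : (QQ k).natDegree ≤ k := by
  unfold QQ
  refine (natDegree_prod_le _ _).trans ?_
  simp

theorem QQ_eval (k : ℕ) (z : ℂ) : (QQ k).eval z = ∏ i ∈ Finset.range k, (z - xx i) := by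
  unfold QQ
  rw [eval_prod]
  simp

theorem QQ_lower (k : ℕ) (z : ℂ) : |‖z‖ - 1| ^ k ≤ ‖(QQ k).eval z‖ := by
  rw [QQ_eval, norm_prod]
  calc |‖z‖ - 1| ^ k = ∏ _i ∈ Finset.range k, |‖z‖ - 1| := by simp
    _ ≤ ∏ i ∈ Finset.range k, ‖z - xx i‖ := by
        apply Finset.prod_le_prod
        · intro i _
          exact abs_nonneg _
        · intro i _
          have := abs_norm_sub_norm_le z (xx i)
          rwa [norm_xx] at this

theorem QQ_upper (k j : ℕ) : ‖(QQ k).eval (xx j)‖ ^ 2 ≤ 4 ^ k := by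
  have h : ‖(QQ k).eval (xx j)‖ ≤ 2 ^ k := by
    rw [QQ_eval, norm_prod]
    calc ∏ i ∈ Finset.range k, ‖xx j - xx i‖ ≤ ∏ _i ∈ Finset.range k, (2 : ℝ) := by
          apply Finset.prod_le_prod
          · intro i _
            exact norm_nonneg _
          · intro i _
            refine (norm_sub_le _ _).trans ?_
            rw [norm_xx, norm_xx]
            norm_num
      _ = 2 ^ k := by simp
  calc ‖(QQ k).eval (xx j)‖ ^ 2 ≤ (2 ^ k) ^ 2 := by gcongr
    _ = 4 ^ k := by
      rw [← pow_mul, mul_comm, pow_mul]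
      norm_num

theorem QQ_zero {k j : ℕ} (hj : j < k) : (QQ k).eval (xx j) = 0 := by
  rw [QQ_eval]
  exact Finset.prod_eq_zero (Finset.mem_range.2 hj) (sub_self _)

theorem QQ_norm (k : ℕ) : ∫ w, ‖(QQ k).eval w‖ ^ 2 ∂nu ≤ 4 ^ k * (2 * Real.exp (-(k : ℝ) ^ 2)) := by
  have h2 := hasSum_nu (f := fun z => ‖(QQ k).eval z‖ ^ 2) (by fun_prop)
  rw [← h2.tsum_eq, ← h2.summable.sum_add_tsum_nat_add k]
  have h4 : ∑ i ∈ Finset.range k, cc i • ‖(QQ k).eval (xx i)‖ ^ 2 = 0 := by
    apply Finset.sum_eq_zero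
    intro i hi
    rw [QQ_zero (Finset.mem_range.1 hi)]
    simp
  have hs : Summable fun i => cc (k + i) * 4 ^ k := (summable_cc_add k).mul_right _
  have h5 : ∑' i, cc (i + k) • ‖(QQ k).eval (xx (i + k))‖ ^ 2 ≤ ∑' i, cc (k + i) * 4 ^ k := by
    apply Summable.tsum_le_tsum _ _ hs
    · intro i
      simp only [smul_eq_mul]
      rw [add_comm i k]
      exact mul_le_mul_of_nonneg_left (QQ_upper _ _) (cc_pos _).le
    · exact (summable_nat_add_iff (f := fun i => cc i • ‖(QQ k).eval (xx i)‖ ^ 2) k).2 h2.summable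
  rw [tsum_mul_right] at h5
  rw [h4, zero_add]
  refine h5.trans ?_
  have h6 := tail_le k
  have h7 := cc_exp k
  calc (∑' i, cc (k + i)) * 4 ^ k ≤ (2 * Real.exp (-(k : ℝ) ^ 2)) * 4 ^ k := by
        gcongr
        linarith
    _ = _ := by ring

/-- lower bound of the Bergman function off the circle -/
theorem bergman_lower {k : ℕ} {e : Fin (k + 1) → ℂ[X]} (he : IsONB nu k e) {z : ℂ}
    (hz : ‖z‖ ≠ 1) :
    (k : ℝ) ^ 2 + 2 * k * Real.log |‖z‖ - 1| - k * Real.log 4 - Real.log 2 ≤
      Real.log (bergman e z) := by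
  have ha : 0 < |‖z‖ - 1| := abs_pos.2 (sub_ne_zero.2 hz)
  have h1 := le_bergman he (QQ_deg k) z
  have h2 := QQ_norm k
  have h3 : (|‖z‖ - 1| ^ k) ^ 2 ≤ ‖(QQ k).eval z‖ ^ 2 := by
    have := QQ_lower k z
    gcongr
  have h4 : (|‖z‖ - 1| ^ k) ^ 2 ≤ (4 ^ k * (2 * Real.exp (-(k : ℝ) ^ 2))) * bergman e z :=
    (h3.trans h1).trans (mul_le_mul_of_nonneg_right h2 (bergman_nonneg _ _))
  have hB : 0 < bergman e z := by
    rcases eq_or_lt_of_le (bergman_nonneg e z) with h0 | h0
    · rw [← h0, mul_zero] at h4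
      have : 0 < (|‖z‖ - 1| ^ k) ^ 2 := by positivity
      linarith
    · exact h0
  have h5 := Real.log_le_log (by positivity) h4
  rw [Real.log_mul (by positivity) hB.ne', Real.log_mul (by positivity) (by positivity),
    Real.log_mul (by norm_num) (Real.exp_pos _).ne', Real.log_exp, Real.log_pow, Real.log_pow,
    Real.log_pow] at h5
  push_cast at h5
  nlinarith

/-- the logarithms grow too fast off the circle -/
theorem tendsto_log {e : (k : ℕ) → Fin (k + 1) → ℂ[X]} (he : ∀ k, IsONB nu k (e k)) {z : ℂ}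
    (hz : ‖z‖ ≠ 1) :
    Tendsto (fun k : ℕ => Real.log (bergman (e k) z) / (2 * k)) atTop atTop := by
  have h1 : Tendsto (fun k : ℕ => (k : ℝ) / 2 + (Real.log |‖z‖ - 1| - Real.log 4 / 2 -
      Real.log 2)) atTop atTop := by
    apply tendsto_atTop_add_const_right
    exact tendsto_natCast_atTop_atTop.atTop_div_const (by norm_num)
  refine tendsto_atTop_mono' _ ?_ h1
  filter_upwards [eventually_ge_atTop 1] with k hk
  have hk' : (1 : ℝ) ≤ k := by exact_mod_cast hk
  rw [le_div_iff₀ (by positivity)]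
  have h2 := bergman_lower (he k) hz
  have h3 : 0 ≤ Real.log 2 := Real.log_nonneg (by norm_num)
  nlinarith

/-- existence of orthonormal bases -/
theorem exists_onb (k : ℕ) : ∃ e : Fin (k + 1) → ℂ[X], IsONB nu k e := by
  let W := degreeLT ℂ (k + 1)
  let core : InnerProductSpace.Core ℂ W :=
    { inner := fun p q => ∫ z, (starRingEnd ℂ) ((p : ℂ[X]).eval z) * (q : ℂ[X]).eval z ∂nu
      conj_inner_symm := by
        intro p q
        show (starRingEnd ℂ) (∫ z, _ ∂nu) = _
        rw [← integral_conj]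
        apply integral_congr_ae
        filter_upwards with z
        rw [map_mul, Complex.conj_conj, mul_comm]
      re_inner_nonneg := by
        intro p
        show 0 ≤ RCLike.re (∫ z, (starRingEnd ℂ) ((p : ℂ[X]).eval z) * (p : ℂ[X]).eval z ∂nu)
        have e1 : (fun z : ℂ => (starRingEnd ℂ) ((p : ℂ[X]).eval z) * (p : ℂ[X]).eval z) =
            fun z => ((‖(p : ℂ[X]).eval z‖ ^ 2 : ℝ) : ℂ) := by
          funext z
          rw [mul_comm, Complex.mul_conj, Complex.normSq_eq_norm_sq]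
        rw [e1, integral_complex_ofReal]
        exact integral_nonneg fun z => by positivity
      add_left := by
        intro p q r
        show ∫ z, (starRingEnd ℂ) (((p + q : W) : ℂ[X]).eval z) * (r : ℂ[X]).eval z ∂nu = _
        have e1 : (fun z : ℂ => (starRingEnd ℂ) (((p + q : W) : ℂ[X]).eval z) * (r : ℂ[X]).eval z) =
            fun z => (starRingEnd ℂ) ((p : ℂ[X]).eval z) * (r : ℂ[X]).eval z +
              (starRingEnd ℂ) ((q : ℂ[X]).eval z) * (r : ℂ[X]).eval z := by
          funext z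
          rw [Submodule.coe_add, eval_add, map_add, add_mul]
        rw [e1, integral_add]
        · apply integrable_nu
          fun_prop
        · apply integrable_nu
          fun_prop
      smul_left := by
        intro p q a
        show ∫ z, (starRingEnd ℂ) (((a • p : W) : ℂ[X]).eval z) * (q : ℂ[X]).eval z ∂nu = _
        have e1 : (fun z : ℂ => (starRingEnd ℂ) (((a • p : W) : ℂ[X]).eval z) * (q : ℂ[X]).eval z) =
            fun z => (starRingEnd ℂ) a *
              ((starRingEnd ℂ) ((p : ℂ[X]).eval z) * (q : ℂ[X]).eval z) := by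
          funext z
          rw [Submodule.coe_smul, eval_smul, smul_eq_mul, map_mul, mul_assoc]
        rw [e1, integral_const_mul]
      definite := by
        intro p hp
        by_contra hne
        have hne' : (p : ℂ[X]) ≠ 0 := fun h0 => hne (Subtype.ext h0)
        have h1 := norm_nu hne'
        have h2 : (∫ z, (starRingEnd ℂ) ((p : ℂ[X]).eval z) * (p : ℂ[X]).eval z ∂nu) = 0 := hp
        have e1 : (fun z : ℂ => (starRingEnd ℂ) ((p : ℂ[X]).eval z) * (p : ℂ[X]).eval z) =
            fun z => ((‖(p : ℂ[X]).eval z‖ ^ 2 : ℝ) : ℂ) := by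
          funext z
          rw [mul_comm, Complex.mul_conj, Complex.normSq_eq_norm_sq]
        rw [e1, integral_complex_ofReal] at h2
        have h3 : (∫ z, ‖(p : ℂ[X]).eval z‖ ^ 2 ∂nu) = 0 := by exact_mod_cast h2
        linarith }
  let _ : NormedAddCommGroup W := core.toNormedAddCommGroup
  let _ : InnerProductSpace ℂ W := InnerProductSpace.ofCore core.toCore
  have hdim : Module.finrank ℂ W = k + 1 := by
    rw [(degreeLTEquiv ℂ (k + 1)).finrank_eq]
    simp
  let b := (stdOrthonormalBasis ℂ W).reindex (finCongr hdim)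
  refine ⟨fun i => (b i : ℂ[X]), ?_, ?_⟩
  · intro i
    show ((b i : W) : ℂ[X]).natDegree ≤ k
    have h1 := mem_degreeLT.1 (b i).2
    rcases eq_or_ne ((b i : W) : ℂ[X]) 0 with h0 | h0
    · rw [h0]
      simp
    · have h2 : ((b i : W) : ℂ[X]).natDegree < k + 1 := (natDegree_lt_iff_degree_lt h0).2 h1
      exact Nat.lt_succ_iff.1 h2
  · intro i j
    have h1 := orthonormal_iff_ite.1 b.orthonormal j i
    have h2 : inner ℂ (b j) (b i) = ∫ z, (starRingEnd ℂ) ((b j : ℂ[X]).eval z) *
      ((b i : ℂ[X])).eval z ∂nu := rfl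
    rw [h2] at h1
    have e1 : (fun z : ℂ => (b i : ℂ[X]).eval z * (starRingEnd ℂ) ((b j : ℂ[X]).eval z)) =
        fun z => (starRingEnd ℂ) ((b j : ℂ[X]).eval z) * (b i : ℂ[X]).eval z := by
      funext z
      ring
    rw [e1, h1]
    simp [eq_comm]

end Pool.Agent.H32BM
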