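import Pool.Agent.H32BM.Defs

set_option autoImplicit false

/-! # The discrete measure -/

namespace Pool.Agent.H32BM

open MeasureTheory Metric Set Filter Topology Real Polynomial
open Pool.Agent.R212.Psh (ee ee_norm continuous_ee measurable_ee)

/-- the points -/
noncomputable def xx (j : ℕ) : ℂ := ee (j : ℝ)

theorem norm_xx (j : ℕ) : ‖xx j‖ = 1 := ee_norm _

theorem xx_inj : Function.Injective xx := ee_injective

/-- the Lagrange polynomials of the nodes `xx 0, ..., xx k` -/
noncomputable def LL (k j : ℕ) : ℂ[X] := Lagrange.basis (Finset.range (k + 1)) xx j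

theorem LL_deg {k j : ℕ} (hj : j ≤ k) : (LL k j).natDegree ≤ k := by
  have h := Lagrange.degree_basis (s := Finset.range (k + 1)) (v := xx) xx_inj.injOn
    (Finset.mem_range.2 (Nat.lt_succ_of_le hj))
  rw [Finset.card_range] at h
  exact natDegree_le_of_degree_le (le_of_eq h)

theorem LL_self {k j : ℕ} (hj : j ≤ k) : (LL k j).eval (xx j) = 1 :=
  Lagrange.eval_basis_self xx_inj.injOn (Finset.mem_range.2 (Nat.lt_succ_of_le hj))

theorem LL_ne {k j i : ℕ} (hi : i ≤ k) (hij : j ≠ i) : (LL k j).eval (xx i) = 0 :=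
  Lagrange.eval_basis_of_ne hij (Finset.mem_range.2 (Nat.lt_succ_of_le hi))

theorem LL_bound (k : ℕ) : ∃ M : ℝ, 0 < M ∧ ∀ j ≤ k, ∀ z : ℂ, ‖z‖ ≤ 1 → ‖(LL k j).eval z‖ ^ 2 ≤ M := by
  have h1 : ∀ j : ℕ, ∃ M : ℝ, ∀ z : ℂ, ‖z‖ ≤ 1 → ‖(LL k j).eval z‖ ^ 2 ≤ M := by
    intro j
    obtain ⟨M, hM⟩ := (isCompact_closedBall (0 : ℂ) 1).exists_bound_of_continuousOn
      (f := fun z => ‖(LL k j).eval z‖ ^ 2) (by fun_prop)
    refine ⟨M, fun z hz => ?_⟩
    have := hM z (by simpa using hz)
    rwa [Real.norm_of_nonneg (by positivity)] at this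
  choose M hM using h1
  refine ⟨1 + ∑ j ∈ Finset.range (k + 1), |M j|, ?_, ?_⟩
  · have : 0 ≤ ∑ j ∈ Finset.range (k + 1), |M j| := Finset.sum_nonneg fun j _ => abs_nonneg _
    linarith
  · intro j hj z hz
    have h2 : |M j| ≤ ∑ j ∈ Finset.range (k + 1), |M j| :=
      Finset.single_le_sum (f := fun j => |M j|) (fun j _ => abs_nonneg _)
        (Finset.mem_range.2 (Nat.lt_succ_of_le hj))
    have h3 := hM j z hz
    have h4 := le_abs_self (M j)
    linarith

/-- bound of the Lagrange polynomials -/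
noncomputable def MM (k : ℕ) : ℝ := (LL_bound k).choose

theorem MM_pos (k : ℕ) : 0 < MM k := (LL_bound k).choose_spec.1

theorem LL_le {k j : ℕ} (hj : j ≤ k) {z : ℂ} (hz : ‖z‖ ≤ 1) : ‖(LL k j).eval z‖ ^ 2 ≤ MM k :=
  (LL_bound k).choose_spec.2 j hj z hz

/-- the ratios -/
noncomputable def eta (k : ℕ) : ℝ := Real.exp (-(2 * k + 1)) / ((1 + MM k) * (k + 1))

theorem eta_pos (k : ℕ) : 0 < eta k := by
  unfold eta
  have := MM_pos k
  positivity

theorem eta_le_exp (k : ℕ) : eta k ≤ Real.exp (-(2 * k + 1)) := by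
  unfold eta
  have h1 := MM_pos k
  apply div_le_self (Real.exp_nonneg _)
  have h2 : (1 : ℝ) ≤ 1 + MM k := by linarith
  have h3 : (1 : ℝ) ≤ (k : ℝ) + 1 := by
    have : (0 : ℝ) ≤ k := Nat.cast_nonneg k
    linarith
  nlinarith

theorem eta_le_one (k : ℕ) : eta k ≤ 1 := by
  refine (eta_le_exp k).trans ?_
  rw [Real.exp_le_one_iff]
  have : (0 : ℝ) ≤ k := Nat.cast_nonneg k
  linarith

theorem MM_eta (k : ℕ) : MM k * eta k ≤ 1 / ((k : ℝ) + 1) := by
  unfold eta
  have h1 := MM_pos k
  have hk : (0 : ℝ) < (k : ℝ) + 1 := by positivity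
  have h2 : Real.exp (-(2 * k + 1)) ≤ 1 := by
    rw [Real.exp_le_one_iff]
    have : (0 : ℝ) ≤ k := Nat.cast_nonneg k
    linarith
  rw [mul_div_assoc', div_le_div_iff₀ (by positivity) hk]
  have h3 : 0 ≤ Real.exp (-(2 * (k : ℝ) + 1)) := Real.exp_nonneg _
  have h4 : MM k * Real.exp (-(2 * k + 1)) ≤ 1 + MM k := by nlinarith
  calc MM k * Real.exp (-(2 * k + 1)) * ((k : ℝ) + 1) ≤ (1 + MM k) * ((k : ℝ) + 1) := by gcongr
    _ = 1 * ((1 + MM k) * ((k : ℝ) + 1)) := by ring

/-- the weights -/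
noncomputable def cc (k : ℕ) : ℝ := ∏ i ∈ Finset.range k, (eta i / 2)

theorem cc_pos (k : ℕ) : 0 < cc k :=
  Finset.prod_pos fun i _ => by
    have := eta_pos i
    positivity

theorem cc_succ (k : ℕ) : cc (k + 1) = cc k * (eta k / 2) := by
  unfold cc
  rw [Finset.prod_range_succ]

theorem cc_half (k : ℕ) : cc (k + 1) ≤ cc k / 2 := by
  rw [cc_succ]
  have h1 := cc_pos k
  have h2 := eta_le_one k
  nlinarith

theorem cc_anti : Antitone cc := antitone_nat_of_succ_le fun k => by
  have h1 := cc_half k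
  have h2 := cc_pos k
  linarith

theorem cc_add (k i : ℕ) : cc (k + i) ≤ cc k * (1 / 2) ^ i := by
  induction i with
  | zero => simp
  | succ i ih =>
    have h1 := cc_half (k + i)
    rw [← add_assoc, pow_succ]
    calc cc (k + i + 1) ≤ cc (k + i) / 2 := h1
      _ ≤ (cc k * (1 / 2) ^ i) / 2 := by linarith
      _ = cc k * ((1 / 2) ^ i * (1 / 2)) := by ring

theorem summable_cc_add (k : ℕ) : Summable fun i => cc (k + i) := by
  refine Summable.of_nonneg_of_le (fun i => (cc_pos _).le) (fun i => cc_add k i) ?_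
  exact (summable_geometric_of_lt_one (by norm_num) (by norm_num)).mul_left _

theorem summable_cc : Summable cc := by
  simpa using summable_cc_add 0

theorem tail_le (k : ℕ) : ∑' i, cc (k + i) ≤ 2 * cc k := by
  have h1 : ∑' i, cc (k + i) ≤ ∑' i, cc k * (1 / 2 : ℝ) ^ i :=
    (summable_cc_add k).tsum_le_tsum (fun i => cc_add k i)
      ((summable_geometric_of_lt_one (by norm_num) (by norm_num)).mul_left _)
  rw [tsum_mul_left, tsum_geometric_of_lt_one (by norm_num) (by norm_num)] at h1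
  linarith

theorem cc_exp (k : ℕ) : cc k ≤ Real.exp (-(k : ℝ) ^ 2) := by
  induction k with
  | zero => simp [cc]
  | succ k ih =>
    rw [cc_succ]
    have h1 := eta_le_exp k
    have h2 := eta_pos k
    have h3 := cc_pos k
    calc cc k * (eta k / 2) ≤ Real.exp (-(k : ℝ) ^ 2) * Real.exp (-(2 * k + 1)) := by
          apply mul_le_mul ih _ (by positivity) (Real.exp_nonneg _)
          linarith
      _ = Real.exp (-((k + 1 : ℕ) : ℝ) ^ 2) := by
          rw [← Real.exp_add]
          congr 1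
          push_cast
          ring

/-- the measure -/
noncomputable def nu : Measure ℂ :=
  Measure.sum fun j : ℕ => ENNReal.ofReal (cc j) • Measure.dirac (xx j)

theorem nu_compl_sphere : nu (sphere (0 : ℂ) 1)ᶜ = 0 := by
  unfold nu
  rw [Measure.sum_apply _ isClosed_sphere.measurableSet.compl]
  rw [ENNReal.tsum_eq_zero]
  intro j
  rw [Measure.smul_apply, Measure.dirac_apply' _ isClosed_sphere.measurableSet.compl]
  have : xx j ∉ (sphere (0 : ℂ) 1)ᶜ := by simp [norm_xx]
  rw [indicator_of_notMem this]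
  simp

theorem nu_univ : nu univ = ENNReal.ofReal (∑' j, cc j) := by
  unfold nu
  rw [Measure.sum_apply _ MeasurableSet.univ, ENNReal.ofReal_tsum_of_nonneg (fun j => (cc_pos j).le)
    summable_cc]
  congr 1
  funext j
  simp

instance nu_finite : IsFiniteMeasure nu := ⟨by
  rw [nu_univ]
  exact ENNReal.ofReal_lt_top⟩

theorem ae_sphere : ∀ᵐ z ∂nu, z ∈ sphere (0 : ℂ) 1 := by
  rw [ae_iff]
  exact nu_compl_sphere

theorem integrable_nu {E : Type*} [NormedAddCommGroup E] [SecondCountableTopology E]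
    {f : ℂ → E} (hf : Continuous f) : Integrable f nu := by
  obtain ⟨C, hC⟩ := (isCompact_sphere (0 : ℂ) 1).exists_bound_of_continuousOn hf.continuousOn
  refine Integrable.of_bound hf.aestronglyMeasurable C ?_
  filter_upwards [ae_sphere] with z hz
  exact hC z hz

theorem hasSum_nu {E : Type*} [NormedAddCommGroup E] [NormedSpace ℝ E] [CompleteSpace E]
    [SecondCountableTopology E] {f : ℂ → E} (hf : Continuous f) :
    HasSum (fun j => cc j • f (xx j)) (∫ z, f z ∂nu) := by
  have h1 := hasSum_integral_measure (μ := fun j : ℕ => ENNReal.ofReal (cc j) •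
    Measure.dirac (xx j)) (f := f) (integrable_nu hf)
  have e : (fun j : ℕ => ∫ z, f z ∂(ENNReal.ofReal (cc j) • Measure.dirac (xx j))) =
      fun j => cc j • f (xx j) := by
    funext j
    rw [integral_smul_measure, integral_dirac, ENNReal.toReal_ofReal (cc_pos j).le]
  rw [e] at h1
  exact h1

theorem norm_nu {p : ℂ[X]} (hp : p ≠ 0) : 0 < ∫ z, ‖p.eval z‖ ^ 2 ∂nu := by
  have hs := hasSum_nu (f := fun z => ‖p.eval z‖ ^ 2) (by fun_prop)
  obtain ⟨j, hj⟩ : ∃ j, p.eval (xx j) ≠ 0 := by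
    by_contra hcon
    push Not at hcon
    apply hp
    apply Polynomial.eq_zero_of_infinite_isRoot
    refine (Set.infinite_range_of_injective xx_inj).mono ?_
    rintro z ⟨j, rfl⟩
    exact hcon j
  rw [← hs.tsum_eq]
  apply hs.summable.tsum_pos (i := j)
  · intro i
    simp only [smul_eq_mul]
    have := cc_pos i
    positivity
  · simp only [smul_eq_mul]
    have := cc_pos j
    positivity

theorem admissible_nu : Admissible (closedBall 0 1) nu where
  finite := nu_finite
  supp := measure_mono_null (compl_subset_compl.2 sphere_subset_closedBall) nu_compl_sphere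
  norm := fun _ hp => norm_nu hp

end Pool.Agent.H32BM
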