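import Pool.Agent.R212.Psh6

set_option autoImplicit false

/-! # The extremal function and the equilibrium measure of the closed unit disc -/

namespace Pool.Agent.H32BM

open MeasureTheory Metric Set Filter Topology Real
open Pool.Agent.R212.Psh (Subharmonic Lelong reg IsMongeAmpere annulus_max
  le_circleAverage_of_support subharmonic_of_continuous ee ee_norm continuous_ee measurable_ee
  W W_of_le W_of_ge integral_W_mul_laplacian continuous_W)

open scoped Laplacian ContDiff ENNReal

/-- The Siciak-Zaharjuta extremal function of `K`. -/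
noncomputable def V (K : Set ℂ) (z : ℂ) : EReal :=
  sSup {t | ∃ u : ℂ → EReal, Lelong u ∧ (∀ w ∈ K, u w ≤ 0) ∧ t = u z}

/-- `μ` is the equilibrium measure of `K`. -/
def IsEquilibrium (K : Set ℂ) (μ : Measure ℂ) : Prop :=
  IsProbabilityMeasure μ ∧ IsMongeAmpere univ (reg univ (V K)) (ENNReal.ofReal (2 * π) • μ)

/-- `log⁺ |z|` -/
noncomputable def lp (z : ℂ) : ℝ := Real.posLog ‖z‖

theorem lp_of_le {z : ℂ} (hz : ‖z‖ ≤ 1) : lp z = 0 := by
  unfold lp
  rw [Real.posLog_eq_zero_iff, abs_of_nonneg (norm_nonneg z)]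
  exact hz

theorem lp_of_ge {z : ℂ} (hz : 1 ≤ ‖z‖) : lp z = Real.log ‖z‖ := by
  unfold lp
  rw [Real.posLog_eq_log (by rwa [abs_of_nonneg (norm_nonneg z)])]

theorem continuous_lp : Continuous lp := by
  unfold lp
  exact Real.continuous_posLog.comp continuous_norm

theorem lp_nonneg (z : ℂ) : 0 ≤ lp z := Real.posLog_nonneg

theorem lp_sub_mean (c : ℂ) (r : ℝ) (hr : 0 < r) : lp c ≤ Real.circleAverage lp c r := by
  rcases le_total ‖c‖ 1 with h | h
  · rw [lp_of_le h]
    have h1 : Real.circleAverage (fun _ : ℂ => (0 : ℝ)) c r ≤ Real.circleAverage lp c r := by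
      apply circleAverage_mono
      · exact circleIntegrable_const 0 c r
      · exact continuous_lp.continuousOn.circleIntegrable'
      · intro x _
        exact lp_nonneg x
    rwa [circleAverage_const] at h1
  · have hc : c ≠ 0 := by
      rintro rfl
      simp at h
      linarith
    refine le_circleAverage_of_support lp continuous_lp c hc 1 0 zero_le_one ?_ ?_ r hr
    · intro z _
      have : Real.log ‖z‖ ≤ Real.posLog ‖z‖ := le_max_right _ _
      unfold lp
      linarith
    · rw [lp_of_ge h]
      ring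

theorem subharmonic_lp (D : Set ℂ) : Subharmonic D (fun z => ((lp z : ℝ) : EReal)) :=
  subharmonic_of_continuous D lp continuous_lp lp_sub_mean

theorem V_bound {u : ℂ → EReal} (hu : Lelong u) (hK : ∀ w ∈ closedBall (0:ℂ) 1, u w ≤ 0)
    (z : ℂ) : u z ≤ ((lp z : ℝ) : EReal) := by
  rcases le_total ‖z‖ 1 with h | h
  · rw [lp_of_le h]
    exact_mod_cast hK z (by simpa using h)
  · rw [lp_of_ge h]
    obtain ⟨hs, C, hC⟩ := hu
    have key : ∀ ε : ℝ, 0 < ε → u z ≤ (((1 + ε) * Real.log ‖z‖ + 0 : ℝ) : EReal) := by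
      intro ε hε
      set R : ℝ := max (Real.exp ((|C| + 1) / ε)) (‖z‖) with hR
      have hexp : Real.exp ((|C| + 1) / ε) ≤ R := le_max_left _ _
      have hRz : ‖z‖ ≤ R := le_max_right _ _
      have h1R : 1 < R := by
        refine lt_of_lt_of_le ?_ hexp
        rw [Real.one_lt_exp_iff]
        positivity
      have hlogR : (|C| + 1) / ε ≤ Real.log R := by
        rw [Real.le_log_iff_exp_le (by linarith)]
        exact hexp
      have hlogR' : |C| + 1 ≤ ε * Real.log R := by
        rw [div_le_iff₀ hε] at hlogR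
        linarith
      refine annulus_max hs h1R (subset_univ _) (1 + ε) 0 ?_ ?_ z h hRz
      · intro x hx
        exact_mod_cast hK x (by simp [hx])
      · intro x hx
        refine (hC x).trans ?_
        rw [EReal.coe_le_coe_iff, Real.posLog_eq_log (by
          rw [hx, abs_of_pos (by linarith)]; exact h1R.le), hx]
        have := le_abs_self C
        linarith
    rcases eq_or_ne (u z) ⊥ with hb | hb
    · rw [hb]
      exact bot_le
    · have htop' := (hs.2.1 z (mem_univ z)).ne
      lift u z to ℝ using ⟨htop', hb⟩ with s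
      rw [EReal.coe_le_coe_iff]
      apply le_of_forall_pos_le_add
      intro δ hδ
      have hl := Real.log_nonneg h
      have := key (δ / (Real.log ‖z‖ + 1)) (by positivity)
      rw [EReal.coe_le_coe_iff] at this
      have h3 : δ / (Real.log ‖z‖ + 1) * Real.log ‖z‖ ≤ δ := by
        rw [div_mul_eq_mul_div, div_le_iff₀ (by linarith)]
        nlinarith
      linarith

theorem lelong_lp : Lelong (fun z => ((lp z : ℝ) : EReal)) := by
  refine ⟨subharmonic_lp univ, 0, fun z => ?_⟩
  rw [EReal.coe_le_coe_iff, add_zero]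
  exact le_rfl

theorem V_eq : V (closedBall 0 1) = fun z => ((lp z : ℝ) : EReal) := by
  funext z
  apply le_antisymm
  · apply sSup_le
    rintro t ⟨u, hu, hK, rfl⟩
    exact V_bound hu hK z
  · apply le_sSup
    refine ⟨_, lelong_lp, fun w hw => ?_, rfl⟩
    rw [lp_of_le (by simpa using hw)]
    exact le_rfl

theorem reg_V : reg univ (V (closedBall 0 1)) = fun z => ((lp z : ℝ) : EReal) := by
  funext z
  unfold reg
  rw [V_eq, nhdsWithin_univ]
  apply Tendsto.limsup_eq
  exact (continuous_coe_real_ereal.comp continuous_lp).tendsto z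

/-- normalised arc length on the unit circle -/
noncomputable def circ : Measure ℂ :=
  ENNReal.ofReal (1 / (2 * π)) • Measure.map ee (volume.restrict (Ioc (-π) π))

theorem circ_apply {s : Set ℂ} (hs : MeasurableSet s) :
    circ s = ENNReal.ofReal (1 / (2 * π)) * volume.restrict (Ioc (-π) π) (ee ⁻¹' s) := by
  unfold circ
  rw [Measure.smul_apply, smul_eq_mul, Measure.map_apply measurable_ee hs]

instance isProb_circ : IsProbabilityMeasure circ := by
  refine ⟨?_⟩
  rw [circ_apply MeasurableSet.univ, preimage_univ, Measure.restrict_apply MeasurableSet.univ,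
    univ_inter, Real.volume_Ioc, ← ENNReal.ofReal_mul (by positivity)]
  rw [show 1 / (2 * π) * (π - -π) = 1 by field_simp; ring]
  exact ENNReal.ofReal_one

theorem integral_circ {φ : ℂ → ℝ} (hφ : Continuous φ) :
    ∫ z, φ z ∂circ = 1 / (2 * π) * ∫ θ in Ioc (-π) π, φ (ee θ) := by
  unfold circ
  rw [integral_smul_measure, integral_map measurable_ee.aemeasurable hφ.aestronglyMeasurable,
    ENNReal.toReal_ofReal (by positivity), smul_eq_mul]

theorem integral_lp_laplacian {φ : ℂ → ℝ} (hφ : ContDiff ℝ ∞ φ) (hs : HasCompactSupport φ) :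
    ∫ z, lp z * (Δ φ) z = ∫ θ in Ioc (-π) π, φ (ee θ) := by
  have h1 := integral_W_mul_laplacian hφ 1 hs
  have h2 := integral_W_mul_laplacian hφ (1/2) hs
  have hc : Continuous (Δ φ) := by
    have : (Δ φ) = fun z => iteratedFDeriv ℝ 2 φ z ![1, 1] +
        iteratedFDeriv ℝ 2 φ z ![Complex.I, Complex.I] := by
      funext z
      rw [InnerProductSpace.laplacian_eq_iteratedFDeriv_complexPlane]
    rw [this]
    have h3 : Continuous (iteratedFDeriv ℝ 2 φ) := hφ.continuous_iteratedFDeriv (m := 2) (WithTop.coe_le_coe.2 le_top)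
    fun_prop
  have hcs : HasCompactSupport (Δ φ) := by
    apply HasCompactSupport.intro hs.isCompact
    intro z hz
    have h0 : fderiv ℝ (fderiv ℝ φ) z = 0 := by
      apply fderiv_of_notMem_tsupport
      intro hmem
      exact hz (tsupport_fderiv_subset ℝ hmem)
    rw [InnerProductSpace.laplacian_eq_iteratedFDeriv_complexPlane]
    simp [iteratedFDeriv_two_apply, h0]
  have hi : ∀ α : ℝ, Integrable (fun z => W α z * (Δ φ) z) := by
    intro α
    apply Continuous.integrable_of_hasCompactSupport
    · exact (continuous_W α).mul hc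
    · exact hcs.mul_left
  have e : ∀ z, lp z = 2 * (W 1 z - W (1/2) z) := by
    intro z
    rcases le_total ‖z‖ 1 with h | h
    · rw [lp_of_le h, W_of_le h, W_of_le h]
      ring
    · rw [lp_of_ge h, W_of_ge h, W_of_ge h]
      ring
  have e2 : (fun z => lp z * (Δ φ) z) =
      fun z => 2 * (W 1 z * (Δ φ) z - W (1/2) z * (Δ φ) z) := by
    funext z
    rw [e]
    ring
  rw [e2, integral_const_mul, integral_sub (hi 1) (hi (1/2)), h1, h2]
  ring

theorem isEquilibrium_circ : IsEquilibrium (closedBall 0 1) circ := by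
  refine ⟨isProb_circ, ?_⟩
  rw [reg_V]
  refine ⟨subharmonic_lp univ, ?_, ?_, ?_, ?_⟩
  · intro F hF _
    obtain ⟨M, hM⟩ := hF.exists_bound_of_continuousOn continuous_lp.continuousOn
    refine ⟨M, fun z hz => ?_⟩
    have := hM z hz
    rw [Real.norm_eq_abs, abs_le] at this
    exact ⟨EReal.coe_le_coe_iff.2 this.1, EReal.coe_le_coe_iff.2 this.2⟩
  · simp
  · intro F _ _
    refine lt_of_le_of_lt (measure_mono (subset_univ _)) ?_
    rw [Measure.smul_apply, smul_eq_mul, measure_univ, mul_one]
    exact ENNReal.ofReal_lt_top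
  · intro φ hφ hs _
    rw [integral_smul_measure, integral_circ hφ.continuous, ENNReal.toReal_ofReal (by positivity),
      smul_eq_mul, Measure.restrict_univ]
    simp only [EReal.toReal_coe]
    rw [integral_lp_laplacian hφ hs]
    field_simp

end Pool.Agent.H32BM
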